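import Mathlib
import Pool.Agent.Lib.MP_6420b1_an.Main
import Pool.Agent.Lib.MP_6420b1_an.Complexity

set_option autoImplicit false

namespace Pool.Agent.Results.MP_6420b1_an.LinearToeplitz

open MeasureTheory MP6420b1

/-- There is a Toeplitz sequence `x` over `{0,1}`, even one of linear complexity, whose Toeplitz
system carries an ergodic invariant probability measure that is partially rigid but not rigid. -/
theorem result : ∃ x : ℤ → Bool, IsToeplitz x ∧
    (∃ C : ℕ, ∀ n : ℕ, 1 ≤ n → complexity x n ≤ C * n) ∧
    ∃ μ : Measure (orbitClosure x), IsProbabilityMeasure μ ∧ Ergodic (orbitShift x) μ ∧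
      IsPartiallyRigid (orbitShift x) μ ∧ ¬ IsRigid (orbitShift x) μ :=
  ⟨xT, isToeplitz_xT, ⟨128, linear_complexity⟩, μT, inferInstance, ergodic_μT,
    partiallyRigid_μT, not_rigid_μT⟩

end Pool.Agent.Results.MP_6420b1_an.LinearToeplitz
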